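import Pool.Agent.APInt.Lower

/-!
Counting three- and four-term progressions inside a finite set of integers.
-/

set_option autoImplicit false

namespace Pool.Agent.APInt36

open Finset Pool.Agent.APInt

/-- pairs of elements of `A` -/
def dbl (A : Finset ℤ) : Finset (ℤ × ℤ) := (A ×ˢ A).filter (fun p => p.1 < p.2)

/-- three-term progressions in `A`, given by the first two terms -/
def tri (A : Finset ℤ) : Finset (ℤ × ℤ) :=
  (A ×ˢ A).filter (fun p => p.1 < p.2 ∧ 2 * p.2 - p.1 ∈ A)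

/-- four-term progressions in `A`, given by the first two terms -/
def quad (A : Finset ℤ) : Finset (ℤ × ℤ) :=
  (A ×ˢ A).filter (fun p => p.1 < p.2 ∧ 2 * p.2 - p.1 ∈ A ∧ 3 * p.2 - 2 * p.1 ∈ A)

lemma mem_dbl {A : Finset ℤ} {p : ℤ × ℤ} : p ∈ dbl A ↔ p.1 ∈ A ∧ p.2 ∈ A ∧ p.1 < p.2 := by
  simp only [dbl, mem_filter, mem_product, and_assoc]

lemma mem_tri {A : Finset ℤ} {p : ℤ × ℤ} :
    p ∈ tri A ↔ p.1 ∈ A ∧ p.2 ∈ A ∧ p.1 < p.2 ∧ 2 * p.2 - p.1 ∈ A := by
  simp only [tri, mem_filter, mem_product, and_assoc]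

lemma mem_quad {A : Finset ℤ} {p : ℤ × ℤ} :
    p ∈ quad A ↔ p.1 ∈ A ∧ p.2 ∈ A ∧ p.1 < p.2 ∧ 2 * p.2 - p.1 ∈ A ∧
      3 * p.2 - 2 * p.1 ∈ A := by
  simp only [quad, mem_filter, mem_product, and_assoc]

lemma card_dbl (A : Finset ℤ) : (dbl A).card = A.card.choose 2 := card_pairs A

/-- three-term progressions using the first or the last element -/
lemma tri_step {A : Finset ℤ} {m M : ℤ} (hmin : ∀ a ∈ A, m ≤ a) (hmax : ∀ a ∈ A, a ≤ M) :
    (tri A).card ≤ (tri ((A.erase m).erase M)).card + ((A.erase m).erase M).card := by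
  classical
  set B := (A.erase m).erase M with hB
  have hsub : tri A ⊆ tri B ∪ (tri A).filter (fun p => p.1 = m ∨ 2 * p.2 - p.1 = M) := by
    intro p hp
    rw [mem_union, mem_filter]
    by_cases h : p.1 = m ∨ 2 * p.2 - p.1 = M
    · right; exact ⟨hp, h⟩
    · left
      push Not at h
      rw [mem_tri] at hp ⊢
      obtain ⟨h1, h2, h3, h4⟩ := hp
      have e1 := hmin _ h1
      have e2 := hmax _ h4
      simp only [hB, mem_erase]
      exact ⟨⟨by omega, by omega, h1⟩, ⟨by omega, by omega, h2⟩, h3, ⟨by omega, by omega, h4⟩⟩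
  have hX : ((tri A).filter (fun p => p.1 = m ∨ 2 * p.2 - p.1 = M)).card ≤ B.card := by
    apply card_le_card_of_injOn (fun p => p.2)
    · intro p hp
      rw [mem_coe, mem_filter, mem_tri] at hp
      obtain ⟨⟨h1, h2, h3, h4⟩, h5⟩ := hp
      have e1 := hmin _ h1
      have e2 := hmax _ h4
      simp only [hB, mem_coe, mem_erase]
      exact ⟨by omega, by omega, h2⟩
    · intro p hp q hq hpq
      rw [mem_coe, mem_filter, mem_tri] at hp hq
      obtain ⟨⟨h1, h2, h3, h4⟩, h5⟩ := hp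
      obtain ⟨⟨k1, k2, k3, k4⟩, k5⟩ := hq
      have e1 := hmin _ h1
      have e2 := hmax _ h4
      have e3 := hmin _ k1
      have e4 := hmax _ k4
      have e5 : p.2 = q.2 := hpq
      have e6 : p.1 = q.1 := by omega
      exact Prod.ext e6 e5
  calc (tri A).card ≤ _ := card_le_card hsub
    _ ≤ _ := card_union_le _ _
    _ ≤ _ := by omega

/-- four-term progressions using the first or the last element -/
lemma quad_sub {A : Finset ℤ} {m M : ℤ} (hmin : ∀ a ∈ A, m ≤ a) (hmax : ∀ a ∈ A, a ≤ M) :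
    quad A ⊆ quad ((A.erase m).erase M) ∪
      (quad A).filter (fun p => p.1 = m ∨ 3 * p.2 - 2 * p.1 = M) := by
  classical
  intro p hp
  rw [mem_union, mem_filter]
  by_cases h : p.1 = m ∨ 3 * p.2 - 2 * p.1 = M
  · right; exact ⟨hp, h⟩
  · left
    push Not at h
    rw [mem_quad] at hp ⊢
    obtain ⟨h1, h2, h3, h4, h5⟩ := hp
    have e1 := hmin _ h1
    have e2 := hmax _ h5
    simp only [mem_erase]
    exact ⟨⟨by omega, by omega, h1⟩, ⟨by omega, by omega, h2⟩, h3, ⟨by omega, by omega, h4⟩,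
      ⟨by omega, by omega, h5⟩⟩

lemma quad_injOn {A : Finset ℤ} {m M : ℤ} (hmin : ∀ a ∈ A, m ≤ a) (hmax : ∀ a ∈ A, a ≤ M) :
    Set.InjOn (fun p : ℤ × ℤ => p.2)
      ((quad A).filter (fun p => p.1 = m ∨ 3 * p.2 - 2 * p.1 = M) : Finset (ℤ × ℤ)) := by
  intro p hp q hq hpq
  rw [mem_coe, mem_filter, mem_quad] at hp hq
  obtain ⟨⟨h1, h2, h3, h4, h6⟩, h5⟩ := hp
  obtain ⟨⟨k1, k2, k3, k4, k6⟩, k5⟩ := hq
  have e1 := hmin _ h1
  have e2 := hmax _ h6
  have e3 := hmin _ k1
  have e4 := hmax _ k6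
  have e5 : p.2 = q.2 := hpq
  have e6 : p.1 = q.1 := by omega
  exact Prod.ext e6 e5

lemma quad_maps {A : Finset ℤ} {m M : ℤ} (hmin : ∀ a ∈ A, m ≤ a) (hmax : ∀ a ∈ A, a ≤ M)
    {t : ℤ} (ht : ∀ b ∈ (A.erase m).erase M, b ≤ t) :
    ((quad A).filter (fun p => p.1 = m ∨ 3 * p.2 - 2 * p.1 = M)).image (fun p => p.2) ⊆
      ((A.erase m).erase M).erase t := by
  intro b hb
  rw [mem_image] at hb
  obtain ⟨p, hp, rfl⟩ := hb
  rw [mem_filter, mem_quad] at hp
  obtain ⟨⟨h1, h2, h3, h4, h6⟩, h5⟩ := hp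
  have e1 := hmin _ h1
  have e2 := hmax _ h6
  have e3 := ht (2 * p.2 - p.1) (by
    simp only [mem_erase]
    exact ⟨by omega, by omega, h4⟩)
  simp only [mem_erase]
  exact ⟨by omega, by omega, by omega, h2⟩

lemma quad_step {A : Finset ℤ} {m M : ℤ} (hmin : ∀ a ∈ A, m ≤ a) (hmax : ∀ a ∈ A, a ≤ M) :
    (quad A).card ≤ (quad ((A.erase m).erase M)).card + (((A.erase m).erase M).card - 1) := by
  classical
  set B := (A.erase m).erase M with hB
  have h0 := card_le_card (quad_sub hmin hmax)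
  have h1 := card_union_le (quad B)
    ((quad A).filter (fun p => p.1 = m ∨ 3 * p.2 - 2 * p.1 = M))
  have h2 : ((quad A).filter (fun p => p.1 = m ∨ 3 * p.2 - 2 * p.1 = M)).card ≤ B.card - 1 := by
    rw [← card_image_of_injOn (quad_injOn hmin hmax)]
    rcases B.eq_empty_or_nonempty with he | hne
    · have := card_le_card (quad_maps hmin hmax (t := 0) (by
        rw [← hB, he]; simp))
      rw [← hB, he] at this
      simpa [he] using this
    · have := card_le_card (quad_maps hmin hmax (t := B.max' hne) (fun b hb => B.le_max' b hb))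
      rwa [← hB, card_erase_of_mem (B.max'_mem hne)] at this
  rw [← hB] at h0
  omega

lemma card_erase_two {A : Finset ℤ} {m M : ℤ} (hm : m ∈ A) (hM : M ∈ A) (hne : m ≠ M) :
    ((A.erase m).erase M).card = A.card - 2 := by
  rw [card_erase_of_mem (mem_erase.2 ⟨hne.symm, hM⟩), card_erase_of_mem hm]
  omega

/-- smallest and largest element -/
lemma exists_ends {A : Finset ℤ} (h : 2 ≤ A.card) :
    ∃ m ∈ A, ∃ M ∈ A, (∀ a ∈ A, m ≤ a) ∧ (∀ a ∈ A, a ≤ M) ∧ m < M := by
  have hne : A.Nonempty := card_pos.1 (by omega)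
  refine ⟨A.min' hne, A.min'_mem hne, A.max' hne, A.max'_mem hne, fun a ha => A.min'_le a ha,
    fun a ha => A.le_max' a ha, ?_⟩
  obtain ⟨a, b, ha, hb, hab⟩ := one_lt_card_iff.1 (show 1 < A.card by omega)
  have h1 := A.min'_le a ha
  have h2 := A.min'_le b hb
  have h3 := A.le_max' a ha
  have h4 := A.le_max' b hb
  omega

lemma tri_eq_empty {A : Finset ℤ} (h : A.card ≤ 2) : tri A = ∅ := by
  by_contra hne
  obtain ⟨p, hp⟩ := nonempty_iff_ne_empty.2 hne
  rw [mem_tri] at hp
  obtain ⟨h1, h2, h3, h4⟩ := hp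
  have : ({p.1, p.2, 2 * p.2 - p.1} : Finset ℤ) ⊆ A := by
    intro t ht
    simp only [mem_insert, mem_singleton] at ht
    rcases ht with rfl | rfl | rfl <;> assumption
  have h5 := card_le_card this
  rw [card_insert_of_notMem, card_insert_of_notMem, card_singleton] at h5
  · omega
  · simp only [mem_singleton]; omega
  · simp only [mem_insert, mem_singleton]; omega

lemma quad_sub_tri (A : Finset ℤ) : quad A ⊆ tri A := by
  intro p hp
  rw [mem_quad] at hp
  rw [mem_tri]
  exact ⟨hp.1, hp.2.1, hp.2.2.1, hp.2.2.2.1⟩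

lemma tri_le : ∀ (n : ℕ) (A : Finset ℤ), A.card = n → (tri A).card ≤ (n - 1) ^ 2 / 4 := by
  intro n
  induction n using Nat.strong_induction_on with
  | _ n ih =>
    intro A hA
    by_cases h2 : n ≤ 2
    · rw [tri_eq_empty (by omega)]
      simp
    · obtain ⟨m, hm, M, hM, hmin, hmax, hlt⟩ := exists_ends (A := A) (by omega)
      have h3 := tri_step hmin hmax
      have h4 := card_erase_two hm hM hlt.ne
      have h5 := ih (n - 2) (by omega) ((A.erase m).erase M) (by omega)
      obtain ⟨k, rfl⟩ : ∃ k, n = k + 3 := ⟨n - 3, by omega⟩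
      have e1 : k + 3 - 2 - 1 = k := by omega
      have e2 : k + 3 - 1 = k + 2 := by omega
      rw [e1] at h5
      rw [e2]
      have e3 : (k + 2) ^ 2 = k ^ 2 + 4 * (k + 1) := by ring
      omega

lemma quad_le : ∀ (n : ℕ) (A : Finset ℤ), A.card = n → (quad A).card ≤ (n - 2) ^ 2 / 4 := by
  intro n
  induction n using Nat.strong_induction_on with
  | _ n ih =>
    intro A hA
    by_cases h2 : n ≤ 2
    · have : quad A = ∅ := by
        have := quad_sub_tri A
        rw [tri_eq_empty (by omega)] at this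
        exact subset_empty.1 this
      rw [this]
      simp
    · obtain ⟨m, hm, M, hM, hmin, hmax, hlt⟩ := exists_ends (A := A) (by omega)
      have h3 := quad_step hmin hmax
      have h4 := card_erase_two hm hM hlt.ne
      have h5 := ih (n - 2) (by omega) ((A.erase m).erase M) (by omega)
      by_cases h6 : n = 3
      · subst h6
        simp at h5 ⊢
        have h7 : ((A.erase m).erase M).card - 1 = 0 := by omega
        rw [h7] at h3
        have h8 : quad ((A.erase m).erase M) = ∅ := h5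
        rw [h8] at h3
        simpa using h3
      · obtain ⟨k, rfl⟩ : ∃ k, n = k + 4 := ⟨n - 4, by omega⟩
        have e1 : k + 4 - 2 - 2 = k := by omega
        have e2 : k + 4 - 2 = k + 2 := by omega
        rw [e1] at h5
        rw [e2]
        have e3 : (k + 2) ^ 2 = k ^ 2 + 4 * (k + 1) := by ring
        omega

end Pool.Agent.APInt36
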