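import Pool.Agent.APInt36.Strict

/-!
The quadratic identity.
-/

set_option autoImplicit false

namespace Pool.Agent.APInt36

open Finset Pool.Agent.APInt

section affine

variable {a d : ℤ}

lemma mem_affine (hd : 1 ≤ d) (S : Finset ℤ) (t : ℤ) :
    a + d * t ∈ S.image (fun i => a + d * i) ↔ t ∈ S := by
  rw [mem_image]
  constructor
  · rintro ⟨i, hi, h⟩
    have : i = t := by
      have h1 : d * i = d * t := by omega
      exact mul_left_cancel₀ (by omega) h1
    rwa [← this]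
  · intro h
    exact ⟨t, h, rfl⟩

lemma affine_lt (hd : 1 ≤ d) (s t : ℤ) : a + d * s < a + d * t ↔ s < t := by
  constructor
  · intro h
    by_contra hcon
    push Not at hcon
    have : d * t ≤ d * s := mul_le_mul_of_nonneg_left hcon (by omega)
    omega
  · intro h
    have : d * s < d * t := mul_lt_mul_of_pos_left h (by omega)
    omega

lemma affine_inj (hd : 1 ≤ d) {s t : ℤ} (h : a + d * s = a + d * t) : s = t := by
  have h1 : d * s = d * t := by omega
  exact mul_left_cancel₀ (by omega) h1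

lemma card_dbl_affine (hd : 1 ≤ d) (S : Finset ℤ) :
    (dbl (S.image (fun i => a + d * i))).card = (dbl S).card := by
  symm
  apply card_bij (fun p _ => (a + d * p.1, a + d * p.2))
  · intro p hp
    rw [mem_dbl] at hp ⊢
    exact ⟨(mem_affine hd S _).2 hp.1, (mem_affine hd S _).2 hp.2.1, (affine_lt hd _ _).2 hp.2.2⟩
  · intro p hp q hq h
    rw [Prod.mk.injEq] at h
    exact Prod.ext (affine_inj hd h.1) (affine_inj hd h.2)
  · intro q hq
    obtain ⟨q1, q2⟩ := q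
    rw [mem_dbl] at hq
    obtain ⟨h1, h2, h3⟩ := hq
    obtain ⟨i, hi, rfl⟩ := mem_image.1 h1
    obtain ⟨j, hj, rfl⟩ := mem_image.1 h2
    exact ⟨(i, j), mem_dbl.2 ⟨hi, hj, (affine_lt hd _ _).1 h3⟩, rfl⟩

lemma card_tri_affine (hd : 1 ≤ d) (S : Finset ℤ) :
    (tri (S.image (fun i => a + d * i))).card = (tri S).card := by
  symm
  apply card_bij (fun p _ => (a + d * p.1, a + d * p.2))
  · intro p hp
    rw [mem_tri] at hp ⊢
    refine ⟨(mem_affine hd S _).2 hp.1, (mem_affine hd S _).2 hp.2.1,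
      (affine_lt hd _ _).2 hp.2.2.1, ?_⟩
    have := (mem_affine (a := a) hd S _).2 hp.2.2.2
    convert this using 1
    ring
  · intro p hp q hq h
    rw [Prod.mk.injEq] at h
    exact Prod.ext (affine_inj hd h.1) (affine_inj hd h.2)
  · intro q hq
    obtain ⟨q1, q2⟩ := q
    rw [mem_tri] at hq
    obtain ⟨h1, h2, h3, h4⟩ := hq
    obtain ⟨i, hi, rfl⟩ := mem_image.1 h1
    obtain ⟨j, hj, rfl⟩ := mem_image.1 h2
    refine ⟨(i, j), mem_tri.2 ⟨hi, hj, (affine_lt hd _ _).1 h3, ?_⟩, rfl⟩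
    rw [← mem_affine (a := a) hd S]
    convert h4 using 1
    ring

lemma card_quad_affine (hd : 1 ≤ d) (S : Finset ℤ) :
    (quad (S.image (fun i => a + d * i))).card = (quad S).card := by
  symm
  apply card_bij (fun p _ => (a + d * p.1, a + d * p.2))
  · intro p hp
    rw [mem_quad] at hp ⊢
    refine ⟨(mem_affine hd S _).2 hp.1, (mem_affine hd S _).2 hp.2.1,
      (affine_lt hd _ _).2 hp.2.2.1, ?_, ?_⟩
    · have := (mem_affine (a := a) hd S _).2 hp.2.2.2.1
      convert this using 1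
      ring
    · have := (mem_affine (a := a) hd S _).2 hp.2.2.2.2
      convert this using 1
      ring
  · intro p hp q hq h
    rw [Prod.mk.injEq] at h
    exact Prod.ext (affine_inj hd h.1) (affine_inj hd h.2)
  · intro q hq
    obtain ⟨q1, q2⟩ := q
    rw [mem_quad] at hq
    obtain ⟨h1, h2, h3, h4, h5⟩ := hq
    obtain ⟨i, hi, rfl⟩ := mem_image.1 h1
    obtain ⟨j, hj, rfl⟩ := mem_image.1 h2
    refine ⟨(i, j), mem_quad.2 ⟨hi, hj, (affine_lt hd _ _).1 h3, ?_, ?_⟩, rfl⟩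
    · rw [← mem_affine (a := a) hd S]
      convert h4 using 1
      ring
    · rw [← mem_affine (a := a) hd S]
      convert h5 using 1
      ring

end affine

lemma isAP_card {P : Finset ℤ} (h : IsAP P) :
    ∃ a d : ℤ, 1 ≤ d ∧ 1 ≤ P.card ∧ P = ((range P.card).image (fun i : ℕ => (i : ℤ))).image
      (fun i => a + d * i) := by
  obtain ⟨a, d, l, hd, hl, rfl⟩ := h
  have hc : ((range l).image (fun i : ℕ => a + (i : ℤ) * d)).card = l := by
    rw [card_image_of_injective, card_range]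
    intro i j hij
    have h1 : a + (i : ℤ) * d = a + (j : ℤ) * d := hij
    have h2 : (i : ℤ) * d = (j : ℤ) * d := by omega
    have h3 : (i : ℤ) = j := mul_right_cancel₀ (by omega) h2
    exact_mod_cast h3
  refine ⟨a, d, hd, by omega, ?_⟩
  rw [hc, image_image]
  apply image_congr
  intro i _
  simp [mul_comm]

lemma euler_ap {P : Finset ℤ} (h : IsAP P) (hc : P.card ≤ 5) : euler P = 1 := by
  obtain ⟨a, d, hd, h1, hP⟩ := isAP_card h
  have h2 : euler P = euler ((range P.card).image (fun i : ℕ => (i : ℤ))) := by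
    have e0 : P.card = ((range P.card).image (fun i : ℕ => (i : ℤ))).card := by
      rw [card_image_of_injective _ Nat.cast_injective, card_range]
    have e1 := card_dbl_affine (a := a) hd ((range P.card).image (fun i : ℕ => (i : ℤ)))
    have e2 := card_tri_affine (a := a) hd ((range P.card).image (fun i : ℕ => (i : ℤ)))
    have e3 := card_quad_affine (a := a) hd ((range P.card).image (fun i : ℕ => (i : ℤ)))
    rw [← hP] at e1 e2 e3
    unfold euler
    rw [e1, e2, e3, ← e0]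
  rw [h2]
  rcases (show P.card = 1 ∨ P.card = 2 ∨ P.card = 3 ∨ P.card = 4 ∨ P.card = 5 by omega) with
    h3 | h3 | h3 | h3 | h3 <;> rw [h3] <;> decide

/-- total coefficient of the members containing `T` -/
def g (F : Finset (Finset ℤ)) (c : Finset ℤ → ℚ) (T : Finset ℤ) : ℚ :=
  ∑ A ∈ F, if T ⊆ A then c A else 0

lemma sum_sq_g {ι : Type*} (F : Finset (Finset ℤ)) (c : Finset ℤ → ℚ) (I : Finset ι)
    (T : ι → Finset ℤ) :
    ∑ i ∈ I, g F c (T i) ^ 2 =
      ∑ A ∈ F, ∑ B ∈ F, c A * c B * ((I.filter (fun i => T i ⊆ A ∩ B)).card : ℚ) := by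
  classical
  have h1 : ∀ i, g F c (T i) ^ 2 =
      ∑ A ∈ F, ∑ B ∈ F, c A * c B * (if T i ⊆ A ∩ B then 1 else 0) := by
    intro i
    rw [g, pow_two, sum_mul_sum]
    apply sum_congr rfl
    intro A _
    apply sum_congr rfl
    intro B _
    by_cases h1 : T i ⊆ A
    · by_cases h2 : T i ⊆ B
      · simp [h1, h2, subset_inter_iff]
      · simp [h1, h2, subset_inter_iff]
    · simp [h1, subset_inter_iff]
  calc ∑ i ∈ I, g F c (T i) ^ 2
      = ∑ i ∈ I, ∑ A ∈ F, ∑ B ∈ F, c A * c B * (if T i ⊆ A ∩ B then 1 else 0) :=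
        sum_congr rfl (fun i _ => h1 i)
    _ = ∑ A ∈ F, ∑ i ∈ I, ∑ B ∈ F, c A * c B * (if T i ⊆ A ∩ B then 1 else 0) := sum_comm
    _ = ∑ A ∈ F, ∑ B ∈ F, ∑ i ∈ I, c A * c B * (if T i ⊆ A ∩ B then 1 else 0) :=
        sum_congr rfl (fun A _ => sum_comm)
    _ = _ := by
        apply sum_congr rfl
        intro A _
        apply sum_congr rfl
        intro B _
        rw [← mul_sum, card_filter]
        push_cast
        rfl

/-- the sets used: single elements -/
def T1 (i : ℤ) : Finset ℤ := {i}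
/-- pairs -/
def T2 (p : ℤ × ℤ) : Finset ℤ := {p.1, p.2}
/-- three-term progressions -/
def T3 (p : ℤ × ℤ) : Finset ℤ := {p.1, p.2, 2 * p.2 - p.1}
/-- four-term progressions -/
def T4 (p : ℤ × ℤ) : Finset ℤ := {p.1, p.2, 2 * p.2 - p.1, 3 * p.2 - 2 * p.1}

lemma count1 {U S : Finset ℤ} (h : S ⊆ U) : (U.filter (fun i => T1 i ⊆ S)) = S := by
  ext t
  simp only [mem_filter, T1, singleton_subset_iff]
  exact ⟨fun h1 => h1.2, fun h1 => ⟨h h1, h1⟩⟩

lemma count2 {U S : Finset ℤ} (h : S ⊆ U) : ((dbl U).filter (fun p => T2 p ⊆ S)) = dbl S := by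
  ext p
  simp only [mem_filter, T2, insert_subset_iff, singleton_subset_iff, mem_dbl]
  constructor
  · rintro ⟨⟨h1, h2, h3⟩, h4, h5⟩
    exact ⟨h4, h5, h3⟩
  · rintro ⟨h1, h2, h3⟩
    exact ⟨⟨h h1, h h2, h3⟩, h1, h2⟩

lemma count3 {U S : Finset ℤ} (h : S ⊆ U) : ((dbl U).filter (fun p => T3 p ⊆ S)) = tri S := by
  ext p
  simp only [mem_filter, T3, insert_subset_iff, singleton_subset_iff, mem_dbl, mem_tri]
  constructor
  · rintro ⟨⟨h1, h2, h3⟩, h4, h5, h6⟩
    exact ⟨h4, h5, h3, h6⟩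
  · rintro ⟨h1, h2, h3, h4⟩
    exact ⟨⟨h h1, h h2, h3⟩, h1, h2, h4⟩

lemma count4 {U S : Finset ℤ} (h : S ⊆ U) : ((dbl U).filter (fun p => T4 p ⊆ S)) = quad S := by
  ext p
  simp only [mem_filter, T4, insert_subset_iff, singleton_subset_iff, mem_dbl, mem_quad]
  constructor
  · rintro ⟨⟨h1, h2, h3⟩, h4, h5, h6, h7⟩
    exact ⟨h4, h5, h3, h6, h7⟩
  · rintro ⟨h1, h2, h3, h4, h5⟩
    exact ⟨⟨h h1, h h2, h3⟩, h1, h2, h4, h5⟩

lemma identity {U : Finset ℤ} {F : Finset (Finset ℤ)} (hU : ∀ A ∈ F, A ⊆ U)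
    (hF : ∀ A ∈ F, ∀ B ∈ F, A ≠ B → IsAP (A ∩ B) ∧ (A ∩ B).card ≤ 5)
    (c : Finset ℤ → ℚ) :
    ∑ i ∈ U, g F c (T1 i) ^ 2 + ∑ p ∈ dbl U, g F c (T3 p) ^ 2 +
      ∑ p ∈ dbl U, g F c (T4 p) ^ 2 + ∑ A ∈ F, c A ^ 2 * (1 - (euler A : ℚ)) =
      (∑ A ∈ F, c A) ^ 2 + ∑ p ∈ dbl U, g F c (T2 p) ^ 2 := by
  classical
  rw [sum_sq_g, sum_sq_g, sum_sq_g, sum_sq_g]
  have h1 : (∑ A ∈ F, c A) ^ 2 = ∑ A ∈ F, ∑ B ∈ F, c A * c B := by
    rw [pow_two, sum_mul_sum]
  have h2 : ∀ A ∈ F, ∀ B ∈ F, c A * c B * ((U.filter (fun i => T1 i ⊆ A ∩ B)).card : ℚ) +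
      c A * c B * (((dbl U).filter (fun i => T3 i ⊆ A ∩ B)).card : ℚ) +
      c A * c B * (((dbl U).filter (fun i => T4 i ⊆ A ∩ B)).card : ℚ) -
      c A * c B * (((dbl U).filter (fun i => T2 i ⊆ A ∩ B)).card : ℚ) =
      c A * c B + (if A = B then c A ^ 2 * ((euler A : ℚ) - 1) else 0) := by
    intro A hA B hB
    have hS : A ∩ B ⊆ U := fun t ht => hU A hA (mem_inter.1 ht).1
    rw [count1 hS, count2 hS, count3 hS, count4 hS]
    have h3 : c A * c B * ((A ∩ B).card : ℚ) + c A * c B * ((tri (A ∩ B)).card : ℚ) +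
        c A * c B * ((quad (A ∩ B)).card : ℚ) - c A * c B * ((dbl (A ∩ B)).card : ℚ) =
        c A * c B * (euler (A ∩ B) : ℚ) := by
      unfold euler
      push_cast
      ring
    rw [h3]
    by_cases hAB : A = B
    · subst hAB
      rw [if_pos rfl, inter_self]
      ring
    · rw [if_neg hAB, euler_ap (hF A hA B hB hAB).1 (hF A hA B hB hAB).2]
      push_cast
      ring
  have h4 : ∑ A ∈ F, ∑ B ∈ F, (c A * c B + (if A = B then c A ^ 2 * ((euler A : ℚ) - 1) else 0)) =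
      ∑ A ∈ F, ∑ B ∈ F, c A * c B + ∑ A ∈ F, c A ^ 2 * ((euler A : ℚ) - 1) := by
    rw [← sum_add_distrib]
    apply sum_congr rfl
    intro A hA
    rw [sum_add_distrib, sum_ite_eq, if_pos hA]
  rw [← sum_congr rfl (fun A hA => sum_congr rfl (fun B hB => h2 A hA B hB))] at h4
  simp only [sum_add_distrib, sum_sub_distrib] at h4
  have h5 : ∑ A ∈ F, c A ^ 2 * (1 - (euler A : ℚ)) = - ∑ A ∈ F, c A ^ 2 * ((euler A : ℚ) - 1) := by
    rw [← sum_neg_distrib]
    apply sum_congr rfl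
    intro A _
    ring
  rw [h5, h1]
  linarith

end Pool.Agent.APInt36
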