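import Pool.Agent.APInt36.Repr

/-!
Families without a common element whose members share at most five elements.
-/

set_option autoImplicit false

namespace Pool.Agent.APInt36

open Finset Pool.Agent.APInt

/-- the index set: five-term progressions inside `[1, N]`, given by centre and difference -/
noncomputable def centres (N : ℕ) : Finset (ℤ × ℤ) :=
  (Icc (1 : ℤ) N ×ˢ Icc (1 : ℤ) N).filter
    (fun p => prog (p.1 - 2 * p.2) p.2 5 ⊆ Icc (1 : ℤ) N)

lemma mem_centres {N : ℕ} {x d : ℤ} :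
    (x, d) ∈ centres N ↔ 1 ≤ d ∧ prog (x - 2 * d) d 5 ⊆ Icc (1 : ℤ) N := by
  rw [centres, mem_filter, mem_product]
  simp only [mem_Icc]
  constructor
  · rintro ⟨⟨h1, h2⟩, h3⟩
    exact ⟨h2.1, h3⟩
  · rintro ⟨h1, h2⟩
    have h3 := h2 (show x - 2 * d ∈ prog (x - 2 * d) d 5 from mem_prog5.2 (by omega))
    have h4 := h2 (show x + 2 * d ∈ prog (x - 2 * d) d 5 from mem_prog5.2 (by omega))
    rw [mem_Icc] at h3 h4
    exact ⟨⟨⟨by omega, by omega⟩, h1, by omega⟩, h2⟩

lemma g_powerset {U : Finset ℤ} {F : Finset (Finset ℤ)} (hF : ∀ A ∈ F, A ⊆ U)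
    {c : Finset ℤ → ℚ} (hc : ∀ A, A ∉ F → c A = 0) (T : Finset ℤ) :
    g U.powerset c T = g F c T := by
  symm
  apply sum_subset
  · intro A hA
    exact mem_powerset.2 (hF A hA)
  · intro A _ hA
    rw [hc A hA]
    simp

lemma g_linear {ι : Type*} (F : Finset (Finset ℤ)) (c : Finset ℤ → ℚ) (I : Finset ι)
    (α : ι → ℚ) (r : ι → Finset ℤ → ℚ) (T : Finset ℤ) :
    g F (fun S => c S - ∑ i ∈ I, α i * r i S) T = g F c T - ∑ i ∈ I, α i * g F (r i) T := by
  simp only [g]
  have h1 : ∑ i ∈ I, α i * ∑ A ∈ F, (if T ⊆ A then r i A else 0) =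
      ∑ A ∈ F, ∑ i ∈ I, α i * (if T ⊆ A then r i A else 0) := by
    rw [sum_comm]
    apply sum_congr rfl
    intro i _
    rw [mul_sum]
  rw [h1, ← sum_sub_distrib]
  apply sum_congr rfl
  intro A _
  by_cases hA : T ⊆ A
  · simp only [if_pos hA]
  · simp only [if_neg hA]
    simp

/-- the representation of a relation -/
lemma represent {N : ℕ} {c : Finset ℤ → ℚ}
    (hsupp : ∀ A, c A ≠ 0 → A ⊆ Icc (1 : ℤ) N ∧ IsAP A ∧ A.card ≤ 5)
    (hg : ∀ T : Finset ℤ, IsAP T → T.card ≤ 4 → g (Icc (1 : ℤ) N).powerset c T = 0) :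
    ∀ S ⊆ Icc (1 : ℤ) N,
      c S = ∑ p ∈ centres N, c (prog (p.1 - 2 * p.2) p.2 5) * R p.1 p.2 S := by
  classical
  set c' : Finset ℤ → ℚ :=
    fun S => c S - ∑ p ∈ centres N, c (prog (p.1 - 2 * p.2) p.2 5) * R p.1 p.2 S with hc'
  have hg' : ∀ T : Finset ℤ, IsAP T → T.card ≤ 4 → g (Icc (1 : ℤ) N).powerset c' T = 0 := by
    intro T hT hcard
    rw [hc', g_linear _ c (centres N) (fun p => c (prog (p.1 - 2 * p.2) p.2 5))
      (fun p => R p.1 p.2) T, hg T hT hcard]
    rw [sum_eq_zero, sub_zero]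
    rintro ⟨x, d⟩ hp
    rw [mem_centres] at hp
    simp only
    rw [g_R hp.1 hp.2 hT hcard, mul_zero]
  have hs' : ∀ S, c' S ≠ 0 → IsAP S ∧ S.card ≤ 5 := by
    intro S hS
    by_cases h1 : c S = 0
    · have h2 : ∑ p ∈ centres N, c (prog (p.1 - 2 * p.2) p.2 5) * R p.1 p.2 S ≠ 0 := by
        intro h3
        apply hS
        rw [hc']
        simp only
        rw [h1, h3, sub_zero]
      obtain ⟨⟨x, d⟩, hp, hpn⟩ := exists_ne_zero_of_sum_ne_zero h2
      rw [mem_centres] at hp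
      exact R_support hp.1 (right_ne_zero_of_mul hpn)
    · exact (hsupp S h1).2
  have hzero : ∀ S ∈ (Icc (1 : ℤ) N).powerset, c' S = 0 := by
    by_contra hcon
    push Not at hcon
    obtain ⟨S0, hS0, hS0n⟩ := hcon
    have hne : ((Icc (1 : ℤ) N).powerset.filter (fun S => c' S ≠ 0)).Nonempty :=
      ⟨S0, mem_filter.2 ⟨hS0, hS0n⟩⟩
    obtain ⟨S, hS, hmax⟩ := exists_max_image _ (fun S : Finset ℤ => S.card) hne
    rw [mem_filter] at hS
    obtain ⟨hAP, h5⟩ := hs' S hS.2
    by_cases h4 : S.card ≤ 4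
    · have h1 := hg' S hAP h4
      apply hS.2
      rw [← h1, g, sum_eq_single S]
      · simp
      · intro B hB hBS
        by_cases hSB : S ⊆ B
        · rw [if_pos hSB]
          by_contra hcB
          have h2 := hmax B (mem_filter.2 ⟨hB, hcB⟩)
          exact hBS (eq_of_subset_of_card_le hSB h2).symm
        · rw [if_neg hSB]
      · intro h; exact absurd hS.1 h
    · have h6 : S.card = 5 := by omega
      obtain ⟨a, d, l, hd, hl, hSP⟩ := hAP
      have hSP' : S = prog a d l := hSP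
      have hl5 : l = 5 := by rw [← h6, hSP', card_prog hd]
      subst hl5
      have hcen : S = prog ((a + 2 * d) - 2 * d) d 5 := by
        rw [hSP']; congr 1; ring
      have hSU := mem_powerset.1 hS.1
      apply hS.2
      rw [hc']
      simp only
      rw [sub_eq_zero, sum_eq_single (a + 2 * d, d)]
      · simp only
        rw [← hcen]
        conv_rhs => rw [hcen]
        rw [R_five hd hd, if_pos rfl, mul_one, ← hcen]
      · rintro ⟨x, e⟩ hp hne'
        rw [mem_centres] at hp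
        simp only at hp ⊢
        rw [hcen, R_five hp.1 hd, if_neg hne', mul_zero]
      · intro hnot
        exact absurd (mem_centres.2 ⟨hd, by rw [← hcen]; exact hSU⟩) hnot
  intro S hS
  have := hzero S (mem_powerset.2 hS)
  rw [hc'] at this
  simp only at this
  linarith

/-- Families without a common element. -/
theorem no_common {N : ℕ} {F : Finset (Finset ℤ)} (hF : Admissible N F)
    (h5 : ∀ A ∈ F, ∀ B ∈ F, A ≠ B → (A ∩ B).card ≤ 5)
    (hx : ¬ ∃ x : ℤ, ∀ A ∈ F, x ∈ A) : F.card ≤ (coveredPairs F).card + 1 := by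
  classical
  by_contra hcon
  push Not at hcon
  obtain ⟨c, hcF, ⟨A0, hA0, hA0c⟩, hsum, hpairs⟩ := exists_relation F (coveredPairs F) hcon
  have hSmall : Small (Icc (1 : ℤ) N) F :=
    ⟨hF.1, fun A hA B hB hAB => ⟨hF.2 A hA B hB hAB, h5 A hA B hB hAB⟩⟩
  obtain ⟨hsupp, hg⟩ := vanish hSmall hsum hpairs
  have hmemF : ∀ A, c A ≠ 0 → A ∈ F := by
    intro A hA
    by_contra h
    exact hA (hcF A h)
  set α : ℤ → ℤ → ℚ := fun x d => c (prog (x - 2 * d) d 5) with hα
  have hrep := represent (N := N) (c := c)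
    (fun A hA => ⟨hF.1 A (hmemF A hA), hsupp A (hmemF A hA) hA⟩)
    (fun T hT hcard => by rw [g_powerset hF.1 hcF]; exact hg T hT hcard)
  have hαc : ∀ x d : ℤ, 1 ≤ d → α x d ≠ 0 → (x, d) ∈ centres N := by
    intro x d hd h
    exact mem_centres.2 ⟨hd, hF.1 _ (hmemF _ h)⟩
  -- formulas for the coefficients
  have hsumite : ∀ q : ℤ × ℤ, 1 ≤ q.2 →
      ∑ p ∈ centres N, c (prog (p.1 - 2 * p.2) p.2 5) * (if p = q then 1 else 0) = α q.1 q.2 := by
    rintro ⟨y, e⟩ he
    by_cases hq : (y, e) ∈ centres N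
    · rw [sum_eq_single (y, e)]
      · simp [hα]
      · intro p _ hp
        rw [if_neg hp, mul_zero]
      · intro h; exact absurd hq h
    · have h1 : α y e = 0 := by
        by_contra h
        exact hq (hαc y e he h)
      rw [sum_eq_zero]
      · exact h1.symm
      · intro p hp
        by_cases hpq : p = (y, e)
        · subst hpq; exact absurd hp hq
        · rw [if_neg hpq, mul_zero]
  have hpairc : ∀ y e : ℤ, 1 ≤ e → prog y (2 * e) 2 ⊆ Icc (1 : ℤ) N →
      c (prog y (2 * e) 2) = α (y + 2 * e) e + α y e := by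
    intro y e he hs
    rw [hrep _ hs, ← hsumite (y + 2 * e, e) he, ← hsumite (y, e) he, ← sum_add_distrib]
    apply sum_congr rfl
    rintro ⟨x, d⟩ hp
    rw [mem_centres] at hp
    simp only
    rw [R_two hp.1 he, mul_add]
  have htric : ∀ y e : ℤ, 1 ≤ e → prog (y - e) e 3 ⊆ Icc (1 : ℤ) N →
      c (prog (y - e) e 3) = 0 → α y e ≠ 0 → 2 ∣ e ∧ α y (e / 2) ≠ 0 := by
    intro y e he hs h0 hne
    rw [hrep _ hs] at h0
    have h1 : ∑ p ∈ centres N, c (prog (p.1 - 2 * p.2) p.2 5) * R p.1 p.2 (prog (y - e) e 3) =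
        α y e - ∑ p ∈ centres N, c (prog (p.1 - 2 * p.2) p.2 5) *
          (if 2 * p.2 = e ∧ p.1 = y then 1 else 0) := by
      rw [← hsumite (y, e) he, ← sum_sub_distrib]
      apply sum_congr rfl
      rintro ⟨x, d⟩ hp
      rw [mem_centres] at hp
      simp only
      rw [R_three hp.1 he, mul_sub]
    rw [h1] at h0
    by_cases h2 : 2 ∣ e
    · refine ⟨h2, ?_⟩
      obtain ⟨k, rfl⟩ := h2
      have hk : 2 * k / 2 = k := by omega
      rw [hk]
      have h3 : ∑ p ∈ centres N, c (prog (p.1 - 2 * p.2) p.2 5) *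
          (if 2 * p.2 = 2 * k ∧ p.1 = y then 1 else 0) = α y k := by
        rw [← hsumite (y, k) (by simp only; omega)]
        apply sum_congr rfl
        rintro ⟨x, d⟩ _
        simp only [Prod.mk.injEq]
        by_cases h4 : x = y ∧ d = k
        · rw [if_pos h4, if_pos (by omega)]
        · rw [if_neg h4, if_neg (by omega)]
      rw [h3] at h0
      intro h4
      apply hne
      rw [h4] at h0
      linarith
    · exfalso
      apply hne
      rw [sum_eq_zero (s := centres N)] at h0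
      · linarith
      · rintro ⟨x, d⟩ _
        simp only
        rw [if_neg, mul_zero]
        rintro ⟨h4, _⟩
        exact h2 ⟨d, h4.symm⟩
  -- two members always meet
  have hmeet : ∀ A ∈ F, ∀ B ∈ F, A.Nonempty → (A ∩ B).Nonempty := by
    intro A hA B hB hne
    by_cases h : A = B
    · subst h
      rwa [inter_self]
    · exact (hF.2 A hA B hB h).nonempty
  -- the support of `α`
  set J := (centres N).filter (fun p => α p.1 p.2 ≠ 0) with hJ
  have hJne : J.Nonempty := by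
    by_contra hne
    rw [not_nonempty_iff_eq_empty] at hne
    apply hA0c
    rw [hrep A0 (hF.1 A0 hA0)]
    apply sum_eq_zero
    intro p hp
    by_cases h : α p.1 p.2 = 0
    · have h1 : c (prog (p.1 - 2 * p.2) p.2 5) = 0 := h
      rw [h1, zero_mul]
    · exfalso
      have : p ∈ J := mem_filter.2 ⟨hp, h⟩
      rw [hne] at this
      exact absurd this (notMem_empty p)
  have hmemJ : ∀ x d : ℤ, (x, d) ∈ J ↔ 1 ≤ d ∧ α x d ≠ 0 := by
    intro x d
    rw [hJ, mem_filter]
    constructor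
    · rintro ⟨h1, h2⟩
      exact ⟨(mem_centres.1 h1).1, h2⟩
    · rintro ⟨h1, h2⟩
      exact ⟨hαc x d h1 h2, h2⟩
  have hin : ∀ x d : ℤ, 1 ≤ d → α x d ≠ 0 → prog (x - 2 * d) d 5 ∈ F := by
    intro x d _ h
    exact hmemF _ h
  have hsubU : ∀ x d : ℤ, 1 ≤ d → α x d ≠ 0 → ∀ t, (t = x - 2 * d ∨ t = x - d ∨ t = x ∨
      t = x + d ∨ t = x + 2 * d) → t ∈ Icc (1 : ℤ) N := by
    intro x d hd h t ht
    apply hF.1 _ (hin x d hd h)
    rw [mem_prog5]; omega
  -- for every element of the support both pairs are members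
  have hpairsF : ∀ x d : ℤ, (x, d) ∈ J → prog x (2 * d) 2 ∈ F ∧ prog (x - 2 * d) (2 * d) 2 ∈ F := by
    intro x d hxd
    have hd := ((hmemJ x d).1 hxd).1
    have hne : (J.filter (fun p => p.2 = d)).Nonempty := ⟨(x, d), mem_filter.2 ⟨hxd, rfl⟩⟩
    obtain ⟨⟨y, e⟩, hy, hymax⟩ := exists_max_image _ (fun p : ℤ × ℤ => p.1) hne
    obtain ⟨⟨z, e'⟩, hz, hzmin⟩ := exists_min_image _ (fun p : ℤ × ℤ => p.1) hne
    rw [mem_filter] at hy hz
    obtain ⟨hy, he⟩ := hy
    obtain ⟨hz, he'⟩ := hz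
    simp only at he he' hymax hzmin
    rw [he] at hy
    rw [he'] at hz
    have hyα := (hmemJ y d).1 hy
    have hzα := (hmemJ z d).1 hz
    have h1 : α (y + 2 * d) d = 0 := by
      by_contra h
      have h2 := hymax (y + 2 * d, d) (mem_filter.2 ⟨(hmemJ _ _).2 ⟨hd, h⟩, rfl⟩)
      simp only at h2
      omega
    have h2 : α (z - 2 * d) d = 0 := by
      by_contra h
      have h2 := hzmin (z - 2 * d, d) (mem_filter.2 ⟨(hmemJ _ _).2 ⟨hd, h⟩, rfl⟩)
      simp only at h2
      omega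
    have h3 : prog y (2 * d) 2 ∈ F := by
      apply hmemF
      rw [hpairc y d hd, h1, zero_add]
      · exact hyα.2
      · intro t ht
        rw [mem_prog2] at ht
        exact hsubU y d hd hyα.2 t (by omega)
    have h4 : prog (z - 2 * d) (2 * d) 2 ∈ F := by
      apply hmemF
      rw [hpairc (z - 2 * d) d hd, h2, add_zero, show z - 2 * d + 2 * d = z by ring]
      · exact hzα.2
      · intro t ht
        rw [mem_prog2] at ht
        exact hsubU z d hd hzα.2 t (by omega)
    have h5 := hymax (z, d) (mem_filter.2 ⟨hz, rfl⟩)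
    have h6 := hymax (x, d) (mem_filter.2 ⟨hxd, rfl⟩)
    have h7 := hzmin (x, d) (mem_filter.2 ⟨hxd, rfl⟩)
    simp only at h5 h6 h7
    obtain ⟨t, ht⟩ := hmeet _ h3 _ h4 ⟨y, mem_prog2.2 (Or.inl rfl)⟩
    rw [mem_inter, mem_prog2, mem_prog2] at ht
    have h8 : y = x := by omega
    have h9 : z = x := by omega
    rw [h8] at h3
    rw [h9] at h4
    exact ⟨h3, h4⟩
  have hcentre : ∀ x d y e : ℤ, (x, d) ∈ J → (y, e) ∈ J → x ≤ y → x = y := by
    intro x d y e h1 h2 hxy
    have hd := ((hmemJ x d).1 h1).1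
    have he := ((hmemJ y e).1 h2).1
    obtain ⟨t, ht⟩ := hmeet _ (hpairsF x d h1).2 _ (hpairsF y e h2).1
      ⟨x - 2 * d, mem_prog2.2 (Or.inl rfl)⟩
    rw [mem_inter, mem_prog2, mem_prog2] at ht
    omega
  obtain ⟨⟨x, d⟩, hxd, hdmin⟩ := exists_min_image J (fun p : ℤ × ℤ => p.2) hJne
  simp only at hdmin
  obtain ⟨hd, hαxd⟩ := (hmemJ x d).1 hxd
  push Not at hx
  obtain ⟨B, hB, hxB⟩ := hx x
  have hm1 : x - 2 * d ∈ B := by
    obtain ⟨t, ht⟩ := hmeet _ (hpairsF x d hxd).2 B hB ⟨x - 2 * d, mem_prog2.2 (Or.inl rfl)⟩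
    rw [mem_inter, mem_prog2] at ht
    rcases ht.1 with h | h
    · rw [← h]; exact ht.2
    · exfalso
      apply hxB
      have h2 : x = t := by omega
      rw [h2]; exact ht.2
  have hm2 : x + 2 * d ∈ B := by
    obtain ⟨t, ht⟩ := hmeet _ (hpairsF x d hxd).1 B hB ⟨x, mem_prog2.2 (Or.inl rfl)⟩
    rw [mem_inter, mem_prog2] at ht
    rcases ht.1 with h | h
    · exfalso
      apply hxB
      rw [← h]; exact ht.2
    · rw [← h]; exact ht.2
  have hP5 := hin x d hd hαxd
  have hBne : B ≠ prog (x - 2 * d) d 5 := by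
    intro h
    apply hxB
    rw [h, mem_prog5]; omega
  have hAPB := hF.2 B hB _ hP5 hBne
  have hi1 : x - 2 * d ∈ B ∩ prog (x - 2 * d) d 5 :=
    mem_inter.2 ⟨hm1, mem_prog5.2 (by omega)⟩
  have hi2 : x + 2 * d ∈ B ∩ prog (x - 2 * d) d 5 :=
    mem_inter.2 ⟨hm2, mem_prog5.2 (by omega)⟩
  have hn1 : x - d ∉ B := by
    intro h
    have hi3 : x - d ∈ B ∩ prog (x - 2 * d) d 5 := mem_inter.2 ⟨h, mem_prog5.2 (by omega)⟩
    apply hxB
    have := hAPB.mem_of_gcd (t := x) hi1 hi3 hi2 (by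
      have h1 : GCDMonoid.gcd (x - d - (x - 2 * d)) (x + 2 * d - (x - 2 * d)) ∣
          x - d - (x - 2 * d) := gcd_dvd_left _ _
      have h2 : x - d - (x - 2 * d) ∣ x - (x - 2 * d) := ⟨2, by ring⟩
      exact dvd_trans h1 h2) (by
      exact le_trans (min_le_left _ _) (by omega)) (by
      exact le_trans (by omega) (le_trans (le_max_right (x - d) (x + 2 * d)) (le_max_right _ _)))
    exact (mem_inter.1 this).1
  have hn2 : x + d ∉ B := by
    intro h
    have hi3 : x + d ∈ B ∩ prog (x - 2 * d) d 5 := mem_inter.2 ⟨h, mem_prog5.2 (by omega)⟩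
    apply hxB
    have := hAPB.mem_of_gcd (t := x) hi2 hi3 hi1 (by
      have h1 : GCDMonoid.gcd (x + d - (x + 2 * d)) (x - 2 * d - (x + 2 * d)) ∣
          x + d - (x + 2 * d) := gcd_dvd_left _ _
      have h2 : x + d - (x + 2 * d) ∣ x - (x + 2 * d) := ⟨2, by ring⟩
      exact dvd_trans h1 h2) (by
      exact le_trans (min_le_right _ _) (le_trans (min_le_right _ _) (by omega))) (by
      exact le_trans (by omega) (le_max_left _ _))
    exact (mem_inter.1 this).1
  have h3 : c (prog (x - d) d 3) = 0 := by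
    by_contra h
    have h1 := hmemF _ h
    obtain ⟨t, ht⟩ := hmeet _ h1 B hB ⟨x - d, mem_prog3.2 (Or.inl rfl)⟩
    rw [mem_inter, mem_prog3] at ht
    obtain ⟨h2 | h2 | h2, h4⟩ := ht
    · exact hn1 (by rw [← h2]; exact h4)
    · apply hxB
      have h5 : x = t := by omega
      rw [h5]; exact h4
    · apply hn2
      have h5 : x + d = t := by omega
      rw [h5]; exact h4
  obtain ⟨h2, h4⟩ := htric x d hd (by
    intro t ht
    rw [mem_prog3] at ht
    exact hsubU x d hd hαxd t (by omega)) h3 hαxd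
  have h6 := hdmin (x, d / 2) ((hmemJ _ _).2 ⟨by omega, h4⟩)
  simp only at h6
  omega

end Pool.Agent.APInt36
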