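import Pool.Agent.APInt36.Form

/-!
Relations between the members of a large family.
-/

set_option autoImplicit false

namespace Pool.Agent.APInt36

open Finset Pool.Agent.APInt

/-- The two-element sets contained in some member of `F`. -/
def coveredPairs (F : Finset (Finset ℤ)) : Finset (Finset ℤ) :=
  F.biUnion (fun A => A.powersetCard 2)

lemma mem_coveredPairs {F : Finset (Finset ℤ)} {T : Finset ℤ} :
    T ∈ coveredPairs F ↔ T.card = 2 ∧ ∃ A ∈ F, T ⊆ A := by
  simp only [coveredPairs, mem_biUnion, mem_powersetCard]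
  constructor
  · rintro ⟨A, hA, h1, h2⟩
    exact ⟨h2, A, hA, h1⟩
  · rintro ⟨h2, A, hA, h1⟩
    exact ⟨A, hA, h1, h2⟩

lemma exists_relation (F E : Finset (Finset ℤ)) (h : E.card + 1 < F.card) :
    ∃ c : Finset ℤ → ℚ, (∀ A, A ∉ F → c A = 0) ∧ (∃ A ∈ F, c A ≠ 0) ∧ ∑ A ∈ F, c A = 0 ∧
      ∀ T ∈ E, g F c T = 0 := by
  classical
  let L : (F → ℚ) →ₗ[ℚ] (Option E → ℚ) :=
    LinearMap.pi (fun o => match o with
      | none => ∑ A : F, LinearMap.proj A
      | some T => ∑ A : F, (if (T : Finset ℤ) ⊆ (A : Finset ℤ) then (1 : ℚ) else 0) •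
          LinearMap.proj A)
  have hker : LinearMap.ker L ≠ ⊥ := by
    apply LinearMap.ker_ne_bot_of_finrank_lt
    rw [Module.finrank_fintype_fun_eq_card, Module.finrank_fintype_fun_eq_card]
    simp only [Fintype.card_option, Fintype.card_coe]
    exact h
  obtain ⟨x, hx, hx0⟩ := (Submodule.ne_bot_iff _).1 hker
  rw [LinearMap.mem_ker] at hx
  set c : Finset ℤ → ℚ := fun A => if hA : A ∈ F then x ⟨A, hA⟩ else 0 with hc
  have hcx : ∀ A : F, c A = x A := by
    intro A
    simp only [hc]
    rw [dif_pos A.2]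
  refine ⟨c, ?_, ?_, ?_, ?_⟩
  · intro A hA
    simp only [hc]
    rw [dif_neg hA]
  · by_contra hcon
    push Not at hcon
    apply hx0
    funext A
    rw [← hcx A, hcon A A.2]
    rfl
  · have h1 := congrFun hx none
    simp only [L, LinearMap.pi_apply, LinearMap.sum_apply, LinearMap.proj_apply,
      Pi.zero_apply] at h1
    rw [← h1, ← sum_coe_sort]
    exact sum_congr rfl (fun A _ => hcx A)
  · intro T hT
    have h1 := congrFun hx (some ⟨T, hT⟩)
    simp only [L, LinearMap.pi_apply, LinearMap.sum_apply, LinearMap.smul_apply,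
      LinearMap.proj_apply, Pi.zero_apply, smul_eq_mul, ite_mul, one_mul, zero_mul] at h1
    rw [← h1, g, ← sum_coe_sort]
    apply sum_congr rfl
    intro A _
    rw [hcx A]

/-- The family condition used below. -/
def Small (U : Finset ℤ) (F : Finset (Finset ℤ)) : Prop :=
  (∀ A ∈ F, A ⊆ U) ∧ ∀ A ∈ F, ∀ B ∈ F, A ≠ B → IsAP (A ∩ B) ∧ (A ∩ B).card ≤ 5

lemma g_eq_zero_of_not {F : Finset (Finset ℤ)} {c : Finset ℤ → ℚ} {T : Finset ℤ}
    (h : ∀ A ∈ F, ¬ T ⊆ A) : g F c T = 0 := by
  apply sum_eq_zero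
  intro A hA
  rw [if_neg (h A hA)]

/-- all consequences of the quadratic identity -/
lemma vanish {U : Finset ℤ} {F : Finset (Finset ℤ)} (hF : Small U F) {c : Finset ℤ → ℚ}
    (h0 : ∑ A ∈ F, c A = 0) (h2 : ∀ T ∈ coveredPairs F, g F c T = 0) :
    (∀ A ∈ F, c A ≠ 0 → IsAP A ∧ A.card ≤ 5) ∧
      ∀ T : Finset ℤ, IsAP T → T.card ≤ 4 → g F c T = 0 := by
  classical
  have hpair : ∀ T : Finset ℤ, T.card = 2 → g F c T = 0 := by
    intro T hT
    by_cases h : ∃ A ∈ F, T ⊆ A
    · exact h2 T (mem_coveredPairs.2 ⟨hT, h⟩)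
    · push Not at h
      exact g_eq_zero_of_not h
  have hid := identity hF.1 hF.2 c
  have h3 : ∑ p ∈ dbl U, g F c (T2 p) ^ 2 = 0 := by
    apply sum_eq_zero
    intro p hp
    rw [mem_dbl] at hp
    rw [hpair (T2 p) (card_pair hp.2.2.ne)]
    norm_num
  rw [h0, h3] at hid
  have n1 : 0 ≤ ∑ i ∈ U, g F c (T1 i) ^ 2 := sum_nonneg (fun i _ => sq_nonneg _)
  have n3 : 0 ≤ ∑ p ∈ dbl U, g F c (T3 p) ^ 2 := sum_nonneg (fun i _ => sq_nonneg _)
  have n4 : 0 ≤ ∑ p ∈ dbl U, g F c (T4 p) ^ 2 := sum_nonneg (fun i _ => sq_nonneg _)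
  have hE : ∀ A, (0 : ℚ) ≤ 1 - (euler A : ℚ) := by
    intro A
    have := euler_le A
    have h4 : (euler A : ℚ) ≤ 1 := by exact_mod_cast this
    linarith
  have n5 : 0 ≤ ∑ A ∈ F, c A ^ 2 * (1 - (euler A : ℚ)) :=
    sum_nonneg (fun A _ => mul_nonneg (sq_nonneg _) (hE A))
  have z1 : ∑ i ∈ U, g F c (T1 i) ^ 2 = 0 := by linarith
  have z3 : ∑ p ∈ dbl U, g F c (T3 p) ^ 2 = 0 := by linarith
  have z4 : ∑ p ∈ dbl U, g F c (T4 p) ^ 2 = 0 := by linarith
  have z5 : ∑ A ∈ F, c A ^ 2 * (1 - (euler A : ℚ)) = 0 := by linarith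
  rw [sum_eq_zero_iff_of_nonneg (fun i _ => sq_nonneg _)] at z1 z3 z4
  rw [sum_eq_zero_iff_of_nonneg (fun A _ => mul_nonneg (sq_nonneg _) (hE A))] at z5
  constructor
  · intro A hA hc
    apply euler_eq_one
    rcases mul_eq_zero.1 (z5 A hA) with h | h
    · exact absurd (pow_eq_zero_iff (two_ne_zero)|>.1 h) hc
    · have h4 : (euler A : ℚ) = 1 := by linarith
      exact_mod_cast h4
  · intro T hT hcard
    by_cases hTU : T ⊆ U
    swap
    · apply g_eq_zero_of_not
      intro A hA hTA
      exact hTU (hTA.trans (hF.1 A hA))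
    obtain ⟨a, d, hd, h1, hP⟩ := isAP_card hT
    rcases (show T.card = 1 ∨ T.card = 2 ∨ T.card = 3 ∨ T.card = 4 by omega) with
      h4 | h4 | h4 | h4
    · obtain ⟨i, rfl⟩ := card_eq_one.1 h4
      have hi : i ∈ U := hTU (mem_singleton_self i)
      exact pow_eq_zero_iff (two_ne_zero) |>.1 (z1 i hi)
    · exact hpair T h4
    · rw [h4] at hP
      have h5 : T = T3 (a, a + d) := by
        rw [hP]
        ext t
        simp only [mem_image, mem_range, exists_exists_and_eq_and, T3, mem_insert,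
          mem_singleton]
        constructor
        · rintro ⟨i, hi, rfl⟩
          interval_cases i
          · left; simp
          · right; left; simp
          · right; right; push_cast; ring
        · rintro (rfl | rfl | rfl)
          · exact ⟨0, by norm_num, by simp⟩
          · exact ⟨1, by norm_num, by simp⟩
          · exact ⟨2, by norm_num, by push_cast; ring⟩
      have h6 : (a, a + d) ∈ dbl U := by
        rw [mem_dbl]
        refine ⟨?_, ?_, by simp only; omega⟩
        · apply hTU; rw [h5]; simp [T3]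
        · apply hTU; rw [h5]; simp [T3]
      rw [h5]
      exact pow_eq_zero_iff (two_ne_zero) |>.1 (z3 _ h6)
    · rw [h4] at hP
      have h5 : T = T4 (a, a + d) := by
        rw [hP]
        ext t
        simp only [mem_image, mem_range, exists_exists_and_eq_and, T4, mem_insert,
          mem_singleton]
        constructor
        · rintro ⟨i, hi, rfl⟩
          interval_cases i
          · left; simp
          · right; left; simp
          · right; right; left; push_cast; ring
          · right; right; right; push_cast; ring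
        · rintro (rfl | rfl | rfl | rfl)
          · exact ⟨0, by norm_num, by simp⟩
          · exact ⟨1, by norm_num, by simp⟩
          · exact ⟨2, by norm_num, by push_cast; ring⟩
          · exact ⟨3, by norm_num, by push_cast; ring⟩
      have h6 : (a, a + d) ∈ dbl U := by
        rw [mem_dbl]
        refine ⟨?_, ?_, by simp only; omega⟩
        · apply hTU; rw [h5]; simp [T4]
        · apply hTU; rw [h5]; simp [T4]
      rw [h5]
      exact pow_eq_zero_iff (two_ne_zero) |>.1 (z4 _ h6)

end Pool.Agent.APInt36
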