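import Pool.Agent.APInt36.Rel

/-!
Every relation is a combination of the relations attached to five-term progressions.
-/

set_option autoImplicit false

namespace Pool.Agent.APInt36

open Finset Pool.Agent.APInt

/-- the progression with first term `a`, difference `d` and `l` terms -/
def prog (a d : ℤ) (l : ℕ) : Finset ℤ := (range l).image (fun i : ℕ => a + (i : ℤ) * d)

lemma mem_prog {a d t : ℤ} {l : ℕ} : t ∈ prog a d l ↔ ∃ i : ℕ, i < l ∧ a + (i : ℤ) * d = t := by
  simp [prog]

lemma isAP_prog {a d : ℤ} {l : ℕ} (hd : 1 ≤ d) (hl : 1 ≤ l) : IsAP (prog a d l) :=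
  ⟨a, d, l, hd, hl, rfl⟩

lemma card_prog {a d : ℤ} {l : ℕ} (hd : 1 ≤ d) : (prog a d l).card = l := by
  rw [prog, card_image_of_injective, card_range]
  intro i j hij
  have h1 : a + (i : ℤ) * d = a + (j : ℤ) * d := hij
  have h2 : (i : ℤ) * d = (j : ℤ) * d := by omega
  have h3 : (i : ℤ) = j := mul_right_cancel₀ (by omega) h2
  exact_mod_cast h3

lemma mem_prog1 {a d t : ℤ} : t ∈ prog a d 1 ↔ t = a := by
  rw [mem_prog]
  constructor
  · rintro ⟨i, hi, rfl⟩
    interval_cases i
    simp
  · rintro rfl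
    exact ⟨0, by norm_num, by simp⟩

lemma mem_prog2 {a d t : ℤ} : t ∈ prog a d 2 ↔ t = a ∨ t = a + d := by
  rw [mem_prog]
  constructor
  · rintro ⟨i, hi, rfl⟩
    interval_cases i
    · left; simp
    · right; simp
  · rintro (rfl | rfl)
    · exact ⟨0, by norm_num, by simp⟩
    · exact ⟨1, by norm_num, by simp⟩

lemma mem_prog3 {a d t : ℤ} : t ∈ prog a d 3 ↔ t = a ∨ t = a + d ∨ t = a + 2 * d := by
  rw [mem_prog]
  constructor
  · rintro ⟨i, hi, rfl⟩
    interval_cases i
    · left; simp
    · right; left; simp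
    · right; right; simp
  · rintro (rfl | rfl | rfl)
    · exact ⟨0, by norm_num, by simp⟩
    · exact ⟨1, by norm_num, by simp⟩
    · exact ⟨2, by norm_num, by simp⟩

lemma mem_prog4 {a d t : ℤ} :
    t ∈ prog a d 4 ↔ t = a ∨ t = a + d ∨ t = a + 2 * d ∨ t = a + 3 * d := by
  rw [mem_prog]
  constructor
  · rintro ⟨i, hi, rfl⟩
    interval_cases i
    · left; simp
    · right; left; simp
    · right; right; left; simp
    · right; right; right; simp
  · rintro (rfl | rfl | rfl | rfl)
    · exact ⟨0, by norm_num, by simp⟩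
    · exact ⟨1, by norm_num, by simp⟩
    · exact ⟨2, by norm_num, by simp⟩
    · exact ⟨3, by norm_num, by simp⟩

lemma mem_prog5 {a d t : ℤ} :
    t ∈ prog a d 5 ↔ t = a ∨ t = a + d ∨ t = a + 2 * d ∨ t = a + 3 * d ∨ t = a + 4 * d := by
  rw [mem_prog]
  constructor
  · rintro ⟨i, hi, rfl⟩
    interval_cases i
    · left; simp
    · right; left; simp
    · right; right; left; simp
    · right; right; right; left; simp
    · right; right; right; right; simp
  · rintro (rfl | rfl | rfl | rfl | rfl)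
    · exact ⟨0, by norm_num, by simp⟩
    · exact ⟨1, by norm_num, by simp⟩
    · exact ⟨2, by norm_num, by simp⟩
    · exact ⟨3, by norm_num, by simp⟩
    · exact ⟨4, by norm_num, by simp⟩

lemma prog_ge {a d t : ℤ} {l : ℕ} (hd : 1 ≤ d) (h : t ∈ prog a d l) : a ≤ t := by
  obtain ⟨i, hi, rfl⟩ := mem_prog.1 h
  have : 0 ≤ (i : ℤ) * d := by positivity
  omega

lemma prog_le {a d t : ℤ} {l : ℕ} (hd : 1 ≤ d) (h : t ∈ prog a d l) :
    t ≤ a + ((l : ℤ) - 1) * d := by
  obtain ⟨i, hi, rfl⟩ := mem_prog.1 h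
  have : (i : ℤ) * d ≤ ((l : ℤ) - 1) * d := by
    apply mul_le_mul_of_nonneg_right <;> omega
  omega

lemma prog_eq_iff {a d a' d' : ℤ} {l l' : ℕ} (hd : 1 ≤ d) (hd' : 1 ≤ d') (hl : 1 ≤ l) :
    prog a d l = prog a' d' l' ↔ l = l' ∧ a = a' ∧ (l = 1 ∨ d = d') := by
  constructor
  · intro h
    have h1 : l = l' := by
      have := congrArg card h
      rwa [card_prog hd, card_prog hd'] at this
    subst h1
    have e1 : a ∈ prog a d l := mem_prog.2 ⟨0, by omega, by simp⟩
    have e2 : a' ∈ prog a' d' l := mem_prog.2 ⟨0, by omega, by simp⟩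
    have e3 : a + ((l : ℤ) - 1) * d ∈ prog a d l :=
      mem_prog.2 ⟨l - 1, by omega, by push_cast [Nat.cast_sub hl]; ring⟩
    have e4 : a' + ((l : ℤ) - 1) * d' ∈ prog a' d' l :=
      mem_prog.2 ⟨l - 1, by omega, by push_cast [Nat.cast_sub hl]; ring⟩
    rw [h] at e1 e3
    rw [← h] at e2 e4
    have f1 := prog_ge hd' e1
    have f2 := prog_ge hd e2
    have f3 := prog_le hd' e3
    have f4 := prog_le hd e4
    have f5 : a = a' := by omega
    refine ⟨rfl, f5, ?_⟩
    by_cases h2 : l = 1
    · left; exact h2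
    · right
      have f6 : ((l : ℤ) - 1) * d = ((l : ℤ) - 1) * d' := by omega
      exact mul_left_cancel₀ (by omega) f6
  · rintro ⟨rfl, rfl, h | rfl⟩
    · subst h
      ext t
      rw [mem_prog1, mem_prog1]
    · rfl

/-- indicator of one set -/
def ind (X : Finset ℤ) : Finset ℤ → ℚ := fun S => if S = X then 1 else 0

/-- the relation attached to the progression `x - 2 d, …, x + 2 d` -/
def R (x d : ℤ) : Finset ℤ → ℚ := fun S =>
  ind (prog (x - 2 * d) d 5) S - ind (prog (x - 2 * d) d 4) S - ind (prog (x - d) d 4) S +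
    ind (prog (x - d) d 3) S - ind (prog (x - 2 * d) (2 * d) 3) S +
    ind (prog (x - 2 * d) (2 * d) 2) S + ind (prog x (2 * d) 2) S - ind (prog x 1 1) S

lemma R_support {x d : ℤ} (hd : 1 ≤ d) {S : Finset ℤ} (h : R x d S ≠ 0) :
    IsAP S ∧ S.card ≤ 5 := by
  by_contra hcon
  apply h
  have key : ∀ (a e : ℤ) (l : ℕ), 1 ≤ e → 1 ≤ l → l ≤ 5 → ind (prog a e l) S = 0 := by
    intro a e l he hl hl5
    rw [ind, if_neg]
    rintro rfl
    exact hcon ⟨isAP_prog he hl, by rw [card_prog he]; exact hl5⟩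
  rw [R, key _ _ _ hd (by norm_num) (by norm_num), key _ _ _ hd (by norm_num) (by norm_num),
    key _ _ _ hd (by norm_num) (by norm_num), key _ _ _ hd (by norm_num) (by norm_num),
    key _ _ _ (by omega) (by norm_num) (by norm_num),
    key _ _ _ (by omega) (by norm_num) (by norm_num),
    key _ _ _ (by omega) (by norm_num) (by norm_num),
    key _ _ _ (by omega) (by norm_num) (by norm_num)]
  norm_num

lemma R_five {x d : ℤ} (hd : 1 ≤ d) {y e : ℤ} (he : 1 ≤ e) :
    R x d (prog (y - 2 * e) e 5) = if (x, d) = (y, e) then 1 else 0 := by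
  simp only [R, ind, prog_eq_iff he hd (show 1 ≤ 5 by norm_num),
    prog_eq_iff he (show 1 ≤ 2 * d by omega) (show 1 ≤ 5 by norm_num),
    prog_eq_iff he (le_refl (1 : ℤ)) (show 1 ≤ 5 by norm_num)]
  norm_num
  by_cases h : x = y ∧ d = e
  · rw [if_pos h, if_pos (by omega)]
  · rw [if_neg h, if_neg (by omega)]

lemma R_two {x d : ℤ} (hd : 1 ≤ d) {y e : ℤ} (he : 1 ≤ e) :
    R x d (prog y (2 * e) 2) =
      (if (x, d) = (y + 2 * e, e) then 1 else 0) + (if (x, d) = (y, e) then 1 else 0) := by
  simp only [R, ind, prog_eq_iff (show 1 ≤ 2 * e by omega) hd (show 1 ≤ 2 by norm_num),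
    prog_eq_iff (show 1 ≤ 2 * e by omega) (show 1 ≤ 2 * d by omega) (show 1 ≤ 2 by norm_num),
    prog_eq_iff (show 1 ≤ 2 * e by omega) (le_refl (1 : ℤ)) (show 1 ≤ 2 by norm_num)]
  norm_num
  congr 1
  · by_cases h : x = y + 2 * e ∧ d = e
    · rw [if_pos h, if_pos (by omega)]
    · rw [if_neg h, if_neg (by omega)]
  · by_cases h : x = y ∧ d = e
    · rw [if_pos h, if_pos (by omega)]
    · rw [if_neg h, if_neg (by omega)]

lemma R_three {x d : ℤ} (hd : 1 ≤ d) {y e : ℤ} (he : 1 ≤ e) :
    R x d (prog (y - e) e 3) =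
      (if (x, d) = (y, e) then 1 else 0) - (if 2 * d = e ∧ x = y then 1 else 0) := by
  simp only [R, ind, prog_eq_iff he hd (show 1 ≤ 3 by norm_num),
    prog_eq_iff he (show 1 ≤ 2 * d by omega) (show 1 ≤ 3 by norm_num),
    prog_eq_iff he (le_refl (1 : ℤ)) (show 1 ≤ 3 by norm_num)]
  norm_num
  congr 1
  · by_cases h : x = y ∧ d = e
    · rw [if_pos h, if_pos (by omega)]
    · rw [if_neg h, if_neg (by omega)]
  · by_cases h : 2 * d = e ∧ x = y
    · rw [if_pos h, if_pos (by omega)]
    · rw [if_neg h, if_neg (by omega)]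

lemma g_ind {F : Finset (Finset ℤ)} {X T : Finset ℤ} (hX : X ∈ F) :
    g F (ind X) T = if T ⊆ X then 1 else 0 := by
  rw [g, sum_eq_single X]
  · simp [ind]
  · intro A _ hA
    simp [ind, hA]
  · intro h; exact absurd hX h

lemma full_of {x d : ℤ} (hd : 1 ≤ d) {T : Finset ℤ} (hT : IsAP T) (hcard : T.card ≤ 4)
    (hu : x - 2 * d ∈ T) (hv : x + 2 * d ∈ T) : x - d ∉ T ∧ x + d ∉ T := by
  obtain ⟨a, δ, b, hδ, hab, hdvd, hmem⟩ := (isAP_iff T).1 hT
  have key : δ ∣ d → False := by
    intro hdd
    have hsub : prog (x - 2 * d) d 5 ⊆ T := by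
      intro t ht
      have h1 := prog_ge hd ht
      have h2 := prog_le hd ht
      obtain ⟨i, hi, hit⟩ := mem_prog.1 ht
      rw [hmem] at hu hv ⊢
      refine ⟨?_, by omega, ?_⟩
      · have h3 : t - a = (x - 2 * d - a) + (i : ℤ) * d := by omega
        rw [h3]
        exact dvd_add hu.1 (Dvd.dvd.mul_left hdd _)
      · push_cast at h2
        omega
    have := card_le_card hsub
    rw [card_prog hd] at this
    omega
  constructor
  · intro h
    apply key
    have h1 := ((hmem _).1 h).1
    have h2 := ((hmem _).1 hu).1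
    have := dvd_sub h1 h2
    rwa [show x - d - a - (x - 2 * d - a) = d by ring] at this
  · intro h
    apply key
    have h1 := ((hmem _).1 hv).1
    have h2 := ((hmem _).1 h).1
    have := dvd_sub h1 h2
    rwa [show x + 2 * d - a - (x + d - a) = d by ring] at this

lemma g_R {U : Finset ℤ} {x d : ℤ} (hd : 1 ≤ d) (hP : prog (x - 2 * d) d 5 ⊆ U)
    {T : Finset ℤ} (hT : IsAP T) (hcard : T.card ≤ 4) : g U.powerset (R x d) T = 0 := by
  classical
  have hmemP : ∀ t, t ∈ prog (x - 2 * d) d 5 ↔
      t = x - 2 * d ∨ t = x - d ∨ t = x ∨ t = x + d ∨ t = x + 2 * d := by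
    intro t
    rw [mem_prog5]
    omega
  have hsub : ∀ X : Finset ℤ, (∀ t ∈ X, t = x - 2 * d ∨ t = x - d ∨ t = x ∨ t = x + d ∨
      t = x + 2 * d) → X ∈ U.powerset := by
    intro X hX
    rw [mem_powerset]
    intro t ht
    exact hP ((hmemP t).2 (hX t ht))
  have h1 : g U.powerset (R x d) T =
      g U.powerset (ind (prog (x - 2 * d) d 5)) T - g U.powerset (ind (prog (x - 2 * d) d 4)) T -
      g U.powerset (ind (prog (x - d) d 4)) T + g U.powerset (ind (prog (x - d) d 3)) T -
      g U.powerset (ind (prog (x - 2 * d) (2 * d) 3)) T +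
      g U.powerset (ind (prog (x - 2 * d) (2 * d) 2)) T +
      g U.powerset (ind (prog x (2 * d) 2)) T - g U.powerset (ind (prog x 1 1)) T := by
    simp only [g, ← sum_add_distrib, ← sum_sub_distrib]
    apply sum_congr rfl
    intro A _
    by_cases hA : T ⊆ A
    · simp only [if_pos hA, R]
    · simp only [if_neg hA]
      norm_num
  rw [h1, g_ind (hsub _ (fun t ht => (hmemP t).1 ht)),
    g_ind (hsub _ (fun t ht => by rw [mem_prog4] at ht; omega)),
    g_ind (hsub _ (fun t ht => by rw [mem_prog4] at ht; omega)),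
    g_ind (hsub _ (fun t ht => by rw [mem_prog3] at ht; omega)),
    g_ind (hsub _ (fun t ht => by rw [mem_prog3] at ht; omega)),
    g_ind (hsub _ (fun t ht => by rw [mem_prog2] at ht; omega)),
    g_ind (hsub _ (fun t ht => by rw [mem_prog2] at ht; omega)),
    g_ind (hsub _ (fun t ht => by rw [mem_prog1] at ht; omega))]
  have s4a : T ⊆ prog (x - 2 * d) d 4 ↔ T ⊆ prog (x - 2 * d) d 5 ∧ x + 2 * d ∉ T := by
    constructor
    · intro h
      refine ⟨fun t ht => ?_, fun hv => ?_⟩
      · have := h ht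
        rw [mem_prog4] at this
        rw [mem_prog5]; omega
      · have := h hv
        rw [mem_prog4] at this
        omega
    · rintro ⟨h, hv⟩ t ht
      have h2 := (hmemP t).1 (h ht)
      have h3 : t ≠ x + 2 * d := by rintro rfl; exact hv ht
      rw [mem_prog4]; omega
  have s4b : T ⊆ prog (x - d) d 4 ↔ T ⊆ prog (x - 2 * d) d 5 ∧ x - 2 * d ∉ T := by
    constructor
    · intro h
      refine ⟨fun t ht => ?_, fun hv => ?_⟩
      · have := h ht
        rw [mem_prog4] at this
        rw [mem_prog5]; omega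
      · have := h hv
        rw [mem_prog4] at this
        omega
    · rintro ⟨h, hv⟩ t ht
      have h2 := (hmemP t).1 (h ht)
      have h3 : t ≠ x - 2 * d := by rintro rfl; exact hv ht
      rw [mem_prog4]; omega
  have s3a : T ⊆ prog (x - d) d 3 ↔ T ⊆ prog (x - 2 * d) d 5 ∧ x - 2 * d ∉ T ∧
      x + 2 * d ∉ T := by
    constructor
    · intro h
      refine ⟨fun t ht => ?_, fun hv => ?_, fun hv => ?_⟩
      · have := h ht
        rw [mem_prog3] at this
        rw [mem_prog5]; omega
      · have := h hv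
        rw [mem_prog3] at this
        omega
      · have := h hv
        rw [mem_prog3] at this
        omega
    · rintro ⟨h, hu, hv⟩ t ht
      have h2 := (hmemP t).1 (h ht)
      have h3 : t ≠ x - 2 * d := by rintro rfl; exact hu ht
      have h4 : t ≠ x + 2 * d := by rintro rfl; exact hv ht
      rw [mem_prog3]; omega
  have s2a : T ⊆ prog (x - 2 * d) (2 * d) 2 ↔
      T ⊆ prog (x - 2 * d) (2 * d) 3 ∧ x + 2 * d ∉ T := by
    constructor
    · intro h
      refine ⟨fun t ht => ?_, fun hv => ?_⟩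
      · have := h ht
        rw [mem_prog2] at this
        rw [mem_prog3]; omega
      · have := h hv
        rw [mem_prog2] at this
        omega
    · rintro ⟨h, hv⟩ t ht
      have h2 := mem_prog3.1 (h ht)
      have h3 : t ≠ x + 2 * d := by rintro rfl; exact hv ht
      rw [mem_prog2]; omega
  have s2b : T ⊆ prog x (2 * d) 2 ↔
      T ⊆ prog (x - 2 * d) (2 * d) 3 ∧ x - 2 * d ∉ T := by
    constructor
    · intro h
      refine ⟨fun t ht => ?_, fun hv => ?_⟩
      · have := h ht
        rw [mem_prog2] at this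
        rw [mem_prog3]; omega
      · have := h hv
        rw [mem_prog2] at this
        omega
    · rintro ⟨h, hv⟩ t ht
      have h2 := mem_prog3.1 (h ht)
      have h3 : t ≠ x - 2 * d := by rintro rfl; exact hv ht
      rw [mem_prog2]; omega
  have s1 : T ⊆ prog x 1 1 ↔
      T ⊆ prog (x - 2 * d) (2 * d) 3 ∧ x - 2 * d ∉ T ∧ x + 2 * d ∉ T := by
    constructor
    · intro h
      refine ⟨fun t ht => ?_, fun hv => ?_, fun hv => ?_⟩
      · have := h ht
        rw [mem_prog1] at this
        rw [mem_prog3]; omega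
      · have := h hv
        rw [mem_prog1] at this
        omega
      · have := h hv
        rw [mem_prog1] at this
        omega
    · rintro ⟨h, hu, hv⟩ t ht
      have h2 := mem_prog3.1 (h ht)
      have h3 : t ≠ x - 2 * d := by rintro rfl; exact hu ht
      have h4 : t ≠ x + 2 * d := by rintro rfl; exact hv ht
      rw [mem_prog1]; omega
  simp only [s4a, s4b, s3a, s2a, s2b, s1]
  by_cases hu : x - 2 * d ∈ T
  · by_cases hv : x + 2 * d ∈ T
    · have h5 := full_of hd hT hcard hu hv
      have h6 : T ⊆ prog (x - 2 * d) d 5 ↔ T ⊆ prog (x - 2 * d) (2 * d) 3 := by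
        constructor
        · intro h t ht
          have h2 := (hmemP t).1 (h ht)
          have h3 : t ≠ x - d := by rintro rfl; exact h5.1 ht
          have h4 : t ≠ x + d := by rintro rfl; exact h5.2 ht
          rw [mem_prog3]; omega
        · intro h t ht
          have h2 := mem_prog3.1 (h ht)
          rw [mem_prog5]; omega
      simp [hu, hv, h6]
    · simp [hu, hv]
  · by_cases hv : x + 2 * d ∈ T
    · simp [hu, hv]
    · simp [hu, hv]

end Pool.Agent.APInt36
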