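import Pool.Agent.APInt36.Count

/-!
The cases of equality in the counting bounds, and the Euler-type function `euler`.
-/

set_option autoImplicit false

namespace Pool.Agent.APInt36

open Finset Pool.Agent.APInt

lemma mem_ends {A : Finset ℤ} {m M : ℤ} (hm : m ∈ A) (hM : M ∈ A) (a : ℤ) :
    a ∈ A ↔ a = m ∨ a = M ∨ a ∈ (A.erase m).erase M := by
  simp only [mem_erase]
  constructor
  · intro h
    by_cases h1 : a = m
    · left; exact h1
    · by_cases h2 : a = M
      · right; left; exact h2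
      · right; right; exact ⟨h2, h1, h⟩
  · rintro (rfl | rfl | ⟨_, _, h⟩)
    · exact hm
    · exact hM
    · exact h

lemma quad_surj {A : Finset ℤ} {m M : ℤ} (hmin : ∀ a ∈ A, m ≤ a) (hmax : ∀ a ∈ A, a ≤ M)
    {t : ℤ} (htB : t ∈ (A.erase m).erase M) (ht : ∀ b ∈ (A.erase m).erase M, b ≤ t)
    (hcard : (quad ((A.erase m).erase M)).card + (((A.erase m).erase M).card - 1) ≤
      (quad A).card) :
    ∀ b ∈ (A.erase m).erase M, b ≠ t →
      ∃ p, p ∈ quad A ∧ (p.1 = m ∨ 3 * p.2 - 2 * p.1 = M) ∧ p.2 = b := by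
  classical
  set B := (A.erase m).erase M with hB
  have h0 := card_le_card (quad_sub hmin hmax)
  have h1 := card_union_le (quad B)
    ((quad A).filter (fun p => p.1 = m ∨ 3 * p.2 - 2 * p.1 = M))
  rw [← hB] at h0
  have h2 : B.card - 1 ≤
      ((quad A).filter (fun p => p.1 = m ∨ 3 * p.2 - 2 * p.1 = M)).card := by omega
  have h3 := quad_maps hmin hmax (t := t) ht
  rw [← hB] at h3
  have h4 : (((quad A).filter (fun p => p.1 = m ∨ 3 * p.2 - 2 * p.1 = M)).image
      (fun p => p.2)) = B.erase t := by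
    apply eq_of_subset_of_card_le h3
    rw [card_image_of_injOn (quad_injOn hmin hmax), card_erase_of_mem htB]
    exact h2
  intro b hb hbt
  have h5 : b ∈ B.erase t := mem_erase.2 ⟨hbt, hb⟩
  rw [← h4, mem_image] at h5
  obtain ⟨p, hp, hpb⟩ := h5
  rw [mem_filter] at hp
  exact ⟨p, hp.1, hp.2, hpb⟩

lemma tri_three {A : Finset ℤ} (h : A.card = 3) (ht : 1 ≤ (tri A).card) :
    ∃ a d : ℤ, 1 ≤ d ∧ A = {a, a + d, a + 2 * d} := by
  obtain ⟨p, hp⟩ := card_pos.1 ht
  rw [mem_tri] at hp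
  obtain ⟨h1, h2, h3, h4⟩ := hp
  refine ⟨p.1, p.2 - p.1, by omega, ?_⟩
  symm
  apply eq_of_subset_of_card_le
  · intro t ht
    simp only [mem_insert, mem_singleton] at ht
    rcases ht with rfl | rfl | rfl
    · exact h1
    · rwa [show p.1 + (p.2 - p.1) = p.2 by ring]
    · rwa [show p.1 + 2 * (p.2 - p.1) = 2 * p.2 - p.1 by ring]
  · rw [h, card_insert_of_notMem, card_insert_of_notMem, card_singleton]
    · simp only [mem_singleton]; omega
    · simp only [mem_insert, mem_singleton]; omega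

lemma quad_four {A : Finset ℤ} (h : A.card = 4) (ht : 1 ≤ (quad A).card) :
    ∃ a d : ℤ, 1 ≤ d ∧ A = {a, a + d, a + 2 * d, a + 3 * d} := by
  obtain ⟨p, hp⟩ := card_pos.1 ht
  rw [mem_quad] at hp
  obtain ⟨h1, h2, h3, h4, h5⟩ := hp
  refine ⟨p.1, p.2 - p.1, by omega, ?_⟩
  symm
  apply eq_of_subset_of_card_le
  · intro t ht
    simp only [mem_insert, mem_singleton] at ht
    rcases ht with rfl | rfl | rfl | rfl
    · exact h1
    · rwa [show p.1 + (p.2 - p.1) = p.2 by ring]
    · rwa [show p.1 + 2 * (p.2 - p.1) = 2 * p.2 - p.1 by ring]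
    · rwa [show p.1 + 3 * (p.2 - p.1) = 3 * p.2 - 2 * p.1 by ring]
  · rw [h, card_insert_of_notMem, card_insert_of_notMem, card_insert_of_notMem, card_singleton]
    · simp only [mem_singleton]; omega
    · simp only [mem_insert, mem_singleton]; omega
    · simp only [mem_insert, mem_singleton]; omega

lemma three_sorted {B : Finset ℤ} (h : B.card = 3) :
    ∃ b₁ b₂ b₃ : ℤ, b₁ < b₂ ∧ b₂ < b₃ ∧ ∀ t, t ∈ B ↔ t = b₁ ∨ t = b₂ ∨ t = b₃ := by
  obtain ⟨m, hm, M, hM, hmin, hmax, hlt⟩ := exists_ends (A := B) (by omega)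
  have h4 := card_erase_two hm hM hlt.ne
  obtain ⟨b, hb⟩ := card_eq_one.1 (show ((B.erase m).erase M).card = 1 by omega)
  have hbm : b ∈ (B.erase m).erase M := by rw [hb]; exact mem_singleton_self b
  simp only [mem_erase] at hbm
  have e1 := hmin b hbm.2.2
  have e2 := hmax b hbm.2.2
  refine ⟨m, b, M, by omega, by omega, ?_⟩
  intro t
  rw [mem_ends hm hM, hb, mem_singleton]
  tauto

lemma quad_five {A : Finset ℤ} (h : A.card = 5) (hq : 2 ≤ (quad A).card) :
    ∃ a d : ℤ, 1 ≤ d ∧ A = {a, a + d, a + 2 * d, a + 3 * d, a + 4 * d} := by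
  obtain ⟨m, hm, M, hM, hmin, hmax, hlt⟩ := exists_ends (A := A) (by omega)
  have h4 := card_erase_two hm hM hlt.ne
  obtain ⟨b₁, b₂, b₃, h12, h23, hB⟩ := three_sorted (B := (A.erase m).erase M) (by omega)
  have h5 := quad_le _ ((A.erase m).erase M) rfl
  rw [show ((A.erase m).erase M).card = 3 by omega] at h5
  norm_num at h5
  have h6 : (quad ((A.erase m).erase M)).card = 0 := by rw [h5]; rfl
  have hmem : ∀ t, t ∈ A ↔ t = m ∨ t = M ∨ t = b₁ ∨ t = b₂ ∨ t = b₃ := by
    intro t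
    rw [mem_ends hm hM, hB]
  have hs := quad_surj hmin hmax (t := b₃) ((hB _).2 (by tauto)) (by
    intro b hb
    have := (hB b).1 hb
    omega) (by omega)
  obtain ⟨p, hp, hp', hpb⟩ := hs b₁ ((hB _).2 (by tauto)) (by omega)
  obtain ⟨q, hq, hq', hqb⟩ := hs b₂ ((hB _).2 (by tauto)) (by omega)
  rw [mem_quad] at hp hq
  obtain ⟨p1, p2, p3, p4, p5⟩ := hp
  obtain ⟨q1, q2, q3, q4, q5⟩ := hq
  have e1 := hmin b₁ ((hmem _).2 (by tauto))
  have e2 := hmax b₃ ((hmem _).2 (by tauto))
  have hb1 : b₁ ∈ (A.erase m).erase M := (hB _).2 (by tauto)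
  have hb3 : b₃ ∈ (A.erase m).erase M := (hB _).2 (by tauto)
  simp only [mem_erase] at hb1 hb3
  rw [hmem] at p1 p4 p5 q1 q4 q5
  rw [hpb] at p3 p4 p5 hp'
  rw [hqb] at q3 q4 q5 hq'
  have f1 : b₂ = b₁ + (b₁ - m) := by omega
  have f2 : b₃ = b₁ + 2 * (b₁ - m) := by omega
  have f3 : M = b₁ + 3 * (b₁ - m) := by omega
  refine ⟨m, b₁ - m, by omega, ?_⟩
  ext t
  rw [hmem]
  simp only [mem_insert, mem_singleton]
  omega

lemma quad_six {A : Finset ℤ} (h : A.card = 6) : (quad A).card ≤ 3 := by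
  by_contra hcon
  push Not at hcon
  obtain ⟨m, hm, M, hM, hmin, hmax, hlt⟩ := exists_ends (A := A) (by omega)
  have h4 := card_erase_two hm hM hlt.ne
  have h3 := quad_step hmin hmax
  have h5 := quad_le _ ((A.erase m).erase M) rfl
  rw [show ((A.erase m).erase M).card = 4 by omega] at h5
  norm_num at h5
  obtain ⟨a, d, hd, hB⟩ := quad_four (A := (A.erase m).erase M) (by omega) (by omega)
  have hB' : ∀ t, t ∈ (A.erase m).erase M ↔ t = a ∨ t = a + d ∨ t = a + 2 * d ∨
      t = a + 3 * d := by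
    intro t
    rw [hB]
    simp only [mem_insert, mem_singleton]
  have hmem : ∀ t, t ∈ A ↔ t = m ∨ t = M ∨ t = a ∨ t = a + d ∨ t = a + 2 * d ∨
      t = a + 3 * d := by
    intro t
    rw [mem_ends hm hM, hB']
  have hs := quad_surj hmin hmax (t := a + 3 * d) ((hB' _).2 (by tauto)) (by
    intro b hb
    have := (hB' b).1 hb
    omega) (by omega)
  obtain ⟨p, hp, hp', hpb⟩ := hs (a + d) ((hB' _).2 (by tauto)) (by omega)
  obtain ⟨q, hq, hq', hqb⟩ := hs (a + 2 * d) ((hB' _).2 (by tauto)) (by omega)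
  rw [mem_quad] at hp hq
  obtain ⟨p1, p2, p3, p4, p5⟩ := hp
  obtain ⟨q1, q2, q3, q4, q5⟩ := hq
  have hb1 : a ∈ (A.erase m).erase M := (hB' _).2 (by tauto)
  have hb3 : a + 3 * d ∈ (A.erase m).erase M := (hB' _).2 (by tauto)
  simp only [mem_erase] at hb1 hb3
  have e1 := hmin _ hb1.2.2
  have e2 := hmax _ hb3.2.2
  rw [hmem] at p1 p4 p5 q1 q4 q5
  rw [hpb] at p3 p4 p5 hp'
  rw [hqb] at q3 q4 q5 hq'
  omega

lemma quad_seven {A : Finset ℤ} (h : A.card = 7) : (quad A).card ≤ 5 := by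
  by_contra hcon
  push Not at hcon
  obtain ⟨m, hm, M, hM, hmin, hmax, hlt⟩ := exists_ends (A := A) (by omega)
  have h4 := card_erase_two hm hM hlt.ne
  have h3 := quad_step hmin hmax
  have h5 := quad_le _ ((A.erase m).erase M) rfl
  rw [show ((A.erase m).erase M).card = 5 by omega] at h5
  norm_num at h5
  obtain ⟨a, d, hd, hB⟩ := quad_five (A := (A.erase m).erase M) (by omega) (by omega)
  have hB' : ∀ t, t ∈ (A.erase m).erase M ↔ t = a ∨ t = a + d ∨ t = a + 2 * d ∨
      t = a + 3 * d ∨ t = a + 4 * d := by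
    intro t
    rw [hB]
    simp only [mem_insert, mem_singleton]
  have hmem : ∀ t, t ∈ A ↔ t = m ∨ t = M ∨ t = a ∨ t = a + d ∨ t = a + 2 * d ∨
      t = a + 3 * d ∨ t = a + 4 * d := by
    intro t
    rw [mem_ends hm hM, hB']
  have hs := quad_surj hmin hmax (t := a + 4 * d) ((hB' _).2 (by tauto)) (by
    intro b hb
    have := (hB' b).1 hb
    omega) (by omega)
  obtain ⟨p, hp, hp', hpb⟩ := hs (a + 2 * d) ((hB' _).2 (by tauto)) (by omega)
  obtain ⟨q, hq, hq', hqb⟩ := hs (a + 3 * d) ((hB' _).2 (by tauto)) (by omega)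
  rw [mem_quad] at hp hq
  obtain ⟨p1, p2, p3, p4, p5⟩ := hp
  obtain ⟨q1, q2, q3, q4, q5⟩ := hq
  have hb1 : a ∈ (A.erase m).erase M := (hB' _).2 (by tauto)
  have hb3 : a + 4 * d ∈ (A.erase m).erase M := (hB' _).2 (by tauto)
  simp only [mem_erase] at hb1 hb3
  have e1 := hmin _ hb1.2.2
  have e2 := hmax _ hb3.2.2
  rw [hmem] at p1 p4 p5 q1 q4 q5
  rw [hpb] at p3 p4 p5 hp'
  rw [hqb] at q3 q4 q5 hq'
  omega

lemma quad_lt : ∀ (n : ℕ) (A : Finset ℤ), A.card = n → 6 ≤ n →
    (quad A).card + 1 ≤ (n - 2) ^ 2 / 4 := by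
  intro n
  induction n using Nat.strong_induction_on with
  | _ n ih =>
    intro A hA h6
    rcases (show n = 6 ∨ n = 7 ∨ 8 ≤ n by omega) with rfl | rfl | h8
    · have := quad_six hA
      norm_num
      omega
    · have := quad_seven hA
      norm_num
      omega
    · obtain ⟨m, hm, M, hM, hmin, hmax, hlt⟩ := exists_ends (A := A) (by omega)
      have h3 := quad_step hmin hmax
      have h4 := card_erase_two hm hM hlt.ne
      have h5 := ih (n - 2) (by omega) ((A.erase m).erase M) (by omega) (by omega)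
      obtain ⟨k, rfl⟩ : ∃ k, n = k + 4 := ⟨n - 4, by omega⟩
      have e1 : k + 4 - 2 - 2 = k := by omega
      have e2 : k + 4 - 2 = k + 2 := by omega
      rw [e1] at h5
      rw [e2]
      have e3 : (k + 2) ^ 2 = k ^ 2 + 4 * (k + 1) := by ring
      omega

/-- points minus pairs plus three-term plus four-term progressions -/
def euler (A : Finset ℤ) : ℤ :=
  (A.card : ℤ) - (dbl A).card + (tri A).card + (quad A).card

lemma choose_split (n : ℕ) (hn : 1 ≤ n) :
    (n - 1) ^ 2 / 4 + (n - 2) ^ 2 / 4 + n = n.choose 2 + 1 := by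
  have hmain : ∀ k : ℕ, (k + 1) ^ 2 / 4 + k ^ 2 / 4 + (k + 2) = (k + 2).choose 2 + 1 := by
    intro k
    induction k with
    | zero => decide
    | succ k ih =>
      have h1 : (k + 1 + 2).choose 2 = (k + 2) + (k + 2).choose 2 := by
        have : k + 1 + 2 = (k + 2) + 1 := by ring
        rw [this, Nat.choose_succ_succ' (k + 2) 1, Nat.choose_one_right]
      have h2 : (k + 1 + 1) ^ 2 = k ^ 2 + 4 * (k + 1) := by ring
      rw [h1]
      omega
  rcases (show n = 1 ∨ 2 ≤ n by omega) with rfl | h2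
  · decide
  · obtain ⟨k, rfl⟩ : ∃ k, n = k + 2 := ⟨n - 2, by omega⟩
    have := hmain k
    have e1 : k + 2 - 1 = k + 1 := by omega
    have e2 : k + 2 - 2 = k := by omega
    rw [e1, e2]
    exact this

lemma euler_le (A : Finset ℤ) : euler A ≤ 1 := by
  rcases A.eq_empty_or_nonempty with rfl | hne
  · decide
  · have h1 := choose_split A.card (card_pos.2 hne)
    have h2 := tri_le _ A rfl
    have h3 := quad_le _ A rfl
    have h4 := card_dbl A
    unfold euler
    omega

lemma isAP_four (a d : ℤ) (hd : 1 ≤ d) : IsAP {a, a + d, a + 2 * d, a + 3 * d} := by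
  refine ⟨a, d, 4, hd, by norm_num, ?_⟩
  ext t
  simp only [mem_insert, mem_singleton, mem_image, mem_range]
  constructor
  · rintro (rfl | rfl | rfl | rfl)
    · exact ⟨0, by norm_num, by simp⟩
    · exact ⟨1, by norm_num, by simp⟩
    · exact ⟨2, by norm_num, by simp⟩
    · exact ⟨3, by norm_num, by simp⟩
  · rintro ⟨i, hi, rfl⟩
    interval_cases i
    · left; simp
    · right; left; simp
    · right; right; left; simp
    · right; right; right; simp

lemma isAP_five (a d : ℤ) (hd : 1 ≤ d) :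
    IsAP {a, a + d, a + 2 * d, a + 3 * d, a + 4 * d} := by
  refine ⟨a, d, 5, hd, by norm_num, ?_⟩
  ext t
  simp only [mem_insert, mem_singleton, mem_image, mem_range]
  constructor
  · rintro (rfl | rfl | rfl | rfl | rfl)
    · exact ⟨0, by norm_num, by simp⟩
    · exact ⟨1, by norm_num, by simp⟩
    · exact ⟨2, by norm_num, by simp⟩
    · exact ⟨3, by norm_num, by simp⟩
    · exact ⟨4, by norm_num, by simp⟩
  · rintro ⟨i, hi, rfl⟩
    interval_cases i
    · left; simp
    · right; left; simp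
    · right; right; left; simp
    · right; right; right; left; simp
    · right; right; right; right; simp

lemma euler_eq_one {A : Finset ℤ} (h : euler A = 1) : IsAP A ∧ A.card ≤ 5 := by
  have hne : A.Nonempty := by
    rw [nonempty_iff_ne_empty]
    rintro rfl
    exact absurd h (by decide)
  have h1 := choose_split A.card (card_pos.2 hne)
  have h2 := tri_le _ A rfl
  have h3 := quad_le _ A rfl
  have h4 := card_dbl A
  have h0 := card_pos.2 hne
  unfold euler at h
  have h5 : (tri A).card = (A.card - 1) ^ 2 / 4 := by omega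
  have h6 : (quad A).card = (A.card - 2) ^ 2 / 4 := by omega
  have h7 : A.card ≤ 5 := by
    by_contra hcon
    push Not at hcon
    have := quad_lt _ A rfl (by omega)
    omega
  refine ⟨?_, h7⟩
  rcases (show A.card ≤ 2 ∨ A.card = 3 ∨ A.card = 4 ∨ A.card = 5 by omega) with
    h8 | h8 | h8 | h8
  · exact isAP_of_card_le_two hne h8
  · rw [h8] at h5
    norm_num at h5
    obtain ⟨a, d, hd, rfl⟩ := tri_three h8 (by omega)
    exact isAP_three a d hd
  · rw [h8] at h6
    norm_num at h6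
    obtain ⟨a, d, hd, rfl⟩ := quad_four h8 (by omega)
    exact isAP_four a d hd
  · rw [h8] at h6
    norm_num at h6
    obtain ⟨a, d, hd, rfl⟩ := quad_five h8 (by omega)
    exact isAP_five a d hd

end Pool.Agent.APInt36
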